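import Mathlib
import Pool.Agent.X30.WS3

/-!
# Randomly shifted arithmetic `k`-spheres in `d > 2 k` dimensions: the asymptotic formula
-/

set_option autoImplicit false

namespace Pool.Agent.Results.MP_927be3_nt.AsymptoticShiftedSpheres

open MeasureTheory ProbabilityTheory Filter Topology

/-- the number of values of the random shift with index `m`: it is at most `m ^ η`, for `m ≥ 1`, `η ≥ 0` -/
noncomputable def size (η : ℝ) (m : ℕ) : ℕ := 2 ^ ⌊η * Nat.log 2 m⌋₊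

/-- the left end of the interval of length `2 ^ ⌊h log₂ n⌋` containing `n` (`log₂` rounded down) -/
noncomputable def base (h : ℝ) (n : ℕ) : ℕ :=
  2 ^ ⌊h * Nat.log 2 n⌋₊ * (n / 2 ^ ⌊h * Nat.log 2 n⌋₊)

/-- the shifted `k`-sphere: the points `x` of `ℤ ^ d` with `∑ (|x_i| ^ k + a (base h |x_i|)) = N` -/
def sphere (k d : ℕ) (h : ℝ) (a : ℕ → ℕ) (N : ℕ) : Set (Fin d → ℤ) :=
  {x | ∑ i, ((x i).natAbs ^ k + a (base h (x i).natAbs)) = N}

theorem result (k q d₀ : ℕ) (hq1 : 1 ≤ q) (hq : q + 2 ≤ k) (hd : 2 ^ q < d₀) (η h : ℝ)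
    (hη : ((k : ℝ) - η) * (d₀ + q * 2 ^ q) < d₀ * (q + 1)) (hη1 : η ≤ k - 1)
    (hh0 : 0 ≤ h) (hh : 2 * (k : ℝ) < d₀ * (1 - h))
    {Ω : Type*} [MeasurableSpace Ω] (μ : Measure Ω) [IsProbabilityMeasure μ]
    (δ : ℕ → Ω → ℕ) (hm : ∀ m, Measurable (δ m)) (hind : iIndepFun δ μ)
    (hu : ∀ m, ∀ j < size η m, μ {ω | δ m ω = j} = 1 / (size η m : ENNReal)) :
    ∀ᵐ ω ∂μ, ∀ d : ℕ, d₀ ≤ d → ∀ ε : ℝ, 0 < ε → ∃ r0 : ℝ, ∀ (r : ℝ) (N : ℕ), r0 ≤ r → r ^ k = N →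
      (sphere k d h (fun m => δ m ω) N).Finite ∧
      |((sphere k d h (fun m => δ m ω) N).ncard : ℝ) / r ^ (d - k) -
        (2 * Real.Gamma (1 + 1 / k)) ^ d / Real.Gamma (d / k)| ≤ ε := by
  filter_upwards [Pool.Agent.X30.WS.sphere_asymp k q d₀ hq1 hq (by exact_mod_cast hd) η h hη hη1
    hh0 hh δ hm hind hu] with ω hω d hdd ε hε
  have hk0 : (3 : ℝ) ≤ k := by exact_mod_cast (by omega : 3 ≤ k)
  have hh1 : 2 * (k : ℝ) < d₀ := by
    have hd0 : (0 : ℝ) ≤ d₀ := by positivity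
    nlinarith
  have hkd : k ≤ d := by
    have : 2 * k < d₀ := by exact_mod_cast hh1
    omega
  obtain ⟨N0, hN0⟩ := (Metric.tendsto_atTop.1 (hω d hdd)) ε hε
  refine ⟨max 1 N0, fun r N hr hrN => ?_⟩
  have hr1 : 1 ≤ r := (le_max_left _ _).trans hr
  have hr0 : 0 < r := by linarith
  have hNN : N0 ≤ N := by
    have h4 : (N0 : ℝ) ≤ N := by
      rw [← hrN]
      calc (N0 : ℝ) ≤ r := (le_max_right _ _).trans hr
        _ ≤ r ^ k := le_self_pow₀ hr1 (by omega)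
    exact_mod_cast h4
  have hrpow : (N : ℝ) ^ ((d : ℝ) / k - 1) = r ^ (d - k) := by
    rw [← hrN, ← Real.rpow_natCast r k, ← Real.rpow_mul hr0.le, ← Real.rpow_natCast r (d - k),
      Nat.cast_sub hkd]
    congr 1
    have : (k : ℝ) ≠ 0 := by linarith
    field_simp
  have h5 := hN0 N hNN
  rw [hrpow, Real.dist_eq] at h5
  exact ⟨(Pool.Agent.X30.WS.signs k d (fun n => n ^ k + δ (base h n) ω) N (by omega)
    (fun n => Nat.le_add_right _ _)).1, h5.le⟩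

end Pool.Agent.Results.MP_927be3_nt.AsymptoticShiftedSpheres
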