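import Mathlib
import Pool.Agent.X25.CT.Pack
import Pool.Agent.X25.MW.Lat

/-!
MP_927be3_nt, Q1 (the least dimension `d_0(k)` in which the arithmetic `k`-spheres carry the expected
number `r^(d-k)` of lattice points): the lower bound of the expected order for spheres about a generic
centre `θ`, in fewer dimensions.

We count the lattice points `m` with `||m_1 - θ_1|^k + ... + |m_d - θ_d|^k - r^k| ≤ δ`. For almost every
centre `θ` the count is at least `c r^(d-k)` for all large real `r` as soon as `2^(d-k-1) > k`, that is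
`d ≥ k + 2 + log_2 k` (rounded down); and the shells may even shrink like a power of `r`.
-/

set_option autoImplicit false

namespace Pool.Agent.Results.MP_927be3_nt.FewerDimensions

open Filter MeasureTheory

/-- The number of lattice points `m` with `|∑ |m_i - θ_i|^k - τ| ≤ δ`. -/
noncomputable def count (k d : ℕ) (θ : Fin d → ℝ) (δ τ : ℝ) : ℕ :=
  {m : Fin d → ℤ | |∑ i, |(m i : ℝ) - θ i| ^ k - τ| ≤ δ}.ncard

lemma count_finite {k d : ℕ} (hk : 1 ≤ k) (θ : Fin d → ℝ) (δ τ : ℝ) :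
    {m : Fin d → ℤ | |∑ i, |(m i : ℝ) - θ i| ^ k - τ| ≤ δ}.Finite := by
  have h1 := Pool.Agent.X25.MW.latt_finite hk (θ := fun i => Int.fract (θ i))
    (fun i => ⟨Int.fract_nonneg _, (Int.fract_lt_one _).le⟩) τ δ
  refine (h1.image (fun m => m + fun i => ⌊θ i⌋)).subset ?_
  intro m hm
  refine ⟨m - fun i => ⌊θ i⌋, ?_, by simp⟩
  have e : ∀ i, ((m - fun i => ⌊θ i⌋) i : ℝ) - Int.fract (θ i) = (m i : ℝ) - θ i := by
    intro i
    simp only [Pi.sub_apply, Int.fract]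
    push_cast
    ring
  show |∑ i, |((m - fun i => ⌊θ i⌋) i : ℝ) - Int.fract (θ i)| ^ k - τ| ≤ δ
  simp_rw [e]
  exact hm

/-- `2^(d-k-1) > k` holds as soon as `d ≥ k + 2 + log_2 k`. -/
theorem log_condition (k d : ℕ) (hd : k + 2 + Nat.log 2 k ≤ d) : k < 2 ^ (d - k - 1) := by
  refine (Nat.lt_pow_succ_log_self (b := 2) (by norm_num) k).trans_le ?_
  exact Nat.pow_le_pow_right (by norm_num) (by omega)

theorem result (k d : ℕ) (hk : 2 ≤ k) (hd : k < 2 ^ (d - k - 1)) :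
    ∀ᵐ θ : Fin d → ℝ, ∀ κ η : ℝ, κ < ((2:ℝ) ^ (d - k - 1) - k) / ((2:ℝ) ^ (d - k - 1) + 1) → 0 < η →
      ∃ c r₀ : ℝ, 0 < c ∧ ∀ r : ℝ, r₀ ≤ r →
        c * r ^ ((d : ℝ) - k - κ) ≤ count k d θ (η * r ^ (-κ)) (r ^ k) := by
  obtain ⟨n, rfl⟩ : ∃ n, k = n + 2 := ⟨k - 2, by omega⟩
  have hd1 : 1 ≤ d - (n + 2) - 1 := by
    by_contra hcon
    have : d - (n + 2) - 1 = 0 := by omega
    rw [this] at hd
    omega
  set m := d - (n + 2) - 1 with hm
  have hcard : Fintype.card (Fin d) = n + 3 + m := by rw [Fintype.card_fin]; omega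
  have hm2 : (n : ℝ) + 2 < 2 ^ m := by exact_mod_cast hd
  have h1 := Pool.Agent.X25.CT.mainC (ι := Fin d) n m hcard hm2
  have h2 := (Measure.measurePreserving_neg (volume : Measure (Fin d → ℝ))).quasiMeasurePreserving.ae h1
  filter_upwards [h2] with θ hθ κ η hκ hη
  have hκ' : κ < (2 ^ m - ((n : ℝ) + 2)) / (2 ^ m + 1) := by
    push_cast at hκ
    exact hκ
  obtain ⟨M, hM⟩ : ∃ M : ℕ, ∀ i, θ i ≤ M := by
    obtain ⟨B, hB⟩ := (Set.finite_range θ).bddAbove
    obtain ⟨M, hM⟩ := exists_nat_ge B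
    exact ⟨M, fun i => (hB (Set.mem_range_self i)).trans hM⟩
  obtain ⟨c, hc, h3⟩ := hθ κ η hκ' hη M
  obtain ⟨r₀, hr₀⟩ := eventually_atTop.1 h3
  refine ⟨c, r₀, hc, fun r hr => ?_⟩
  obtain ⟨S, hS1, hS2⟩ := hr₀ r hr
  rw [Fintype.card_fin] at hS1
  refine hS1.trans ?_
  have hle : S.card ≤ count (n + 2) d θ (η * r ^ (-κ)) (r ^ (n + 2)) := by
    unfold count
    rw [← Set.ncard_coe_finset]
    refine Set.ncard_le_ncard_of_injOn (fun (x : Fin d → ℕ) (i : Fin d) => (x i : ℤ)) ?_ ?_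
      (count_finite (by omega) θ _ _)
    · intro x hx
      have h4 := hS2 x (by exact_mod_cast hx)
      have e : ∀ i, |(((x i : ℕ) : ℤ) : ℝ) - θ i| = (x i : ℝ) + (-θ) i := by
        intro i
        have h5 : (M : ℝ) ≤ x i := by exact_mod_cast h4.1 i
        have h6 := hM i
        rw [Int.cast_natCast, abs_of_nonneg (by linarith), Pi.neg_apply]
        ring
      show |∑ i, |(((x i : ℕ) : ℤ) : ℝ) - θ i| ^ (n + 2) - r ^ (n + 2)| ≤ η * r ^ (-κ)
      simp_rw [e]
      exact h4.2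
    · intro x _ y _ hxy
      funext i
      have : (x i : ℤ) = (y i : ℤ) := congrFun hxy i
      exact_mod_cast this
  exact_mod_cast hle

end Pool.Agent.Results.MP_927be3_nt.FewerDimensions
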