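import Mathlib
import Pool.Agent.X25.MW.Asy3
import Pool.Agent.X25.MW.AlmostAll
import Pool.Agent.X25.MW.LowDim

/-!
MP_927be3_nt, Q1 (the least dimension `d_0(k)` in which the arithmetic `k`-spheres carry the expected
number `r^(d-k)` of lattice points): the question for spheres about a generic centre `θ`.

We count the lattice points `m` with `||m_1 - θ_1|^k + ... + |m_d - θ_d|^k - r^k| ≤ η`. For `θ = 0`,
`η = 1/2` and `r^k` a natural number these are the points of the arithmetic `k`-sphere (theorem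
`count_zero`). For almost every centre the count has the order `r^(d-k)`, and even an asymptotic formula
with a power saving, in every dimension `d ≥ 2k+1`; in every dimension `d ≥ k+1` the asymptotic formula
holds for almost all radii; and in dimensions `d ≤ k` the order fails for every centre (`η` small).
-/

set_option autoImplicit false

namespace Pool.Agent.Results.MP_927be3_nt.GenericCentres

open Filter MeasureTheory

/-- The number of lattice points `m` with `|∑ |m_i - θ_i|^k - τ| ≤ η`. -/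
noncomputable def count (k d : ℕ) (θ : Fin d → ℝ) (η τ : ℝ) : ℕ :=
  {m : Fin d → ℤ | |∑ i, |(m i : ℝ) - θ i| ^ k - τ| ≤ η}.ncard

/-- For the centre `0` and `η = 1/2` these are the points of the arithmetic `k`-sphere. -/
theorem count_zero (k d n : ℕ) (r : ℝ) (hr : r ^ k = n) :
    count k d 0 (1 / 2) (r ^ k) = {m : Fin d → ℤ | ∑ i, |(m i : ℝ)| ^ k = r ^ k}.ncard := by
  unfold count
  congr 1
  ext m
  show |∑ i, |(m i : ℝ) - (0 : Fin d → ℝ) i| ^ k - r ^ k| ≤ 1 / 2 ↔ ∑ i, |(m i : ℝ)| ^ k = r ^ k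
  simp only [Pi.zero_apply, sub_zero]
  have e : (∑ i, |(m i : ℝ)| ^ k) - r ^ k = ((∑ i, |m i| ^ k - (n : ℤ) : ℤ) : ℝ) := by
    rw [hr]
    push_cast
    rfl
  rw [e]
  constructor
  · intro h
    have h1 : |∑ i, |m i| ^ k - (n : ℤ)| < 1 := by
      have h2 : (|∑ i, |m i| ^ k - (n : ℤ)| : ℝ) < 1 := by
        refine lt_of_le_of_lt ?_ (by norm_num : (1 / 2 : ℝ) < 1)
        exact_mod_cast h
      exact_mod_cast h2
    have h3 := Int.abs_lt_one_iff.1 h1
    rw [h3, Int.cast_zero] at e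
    linarith
  · intro h
    rw [← e, h]
    simp

/-- The count has the order `r^(d-k)` for all large radii. -/
def RightOrder (k d : ℕ) (θ : Fin d → ℝ) (η : ℝ) : Prop :=
  ∃ c C r₀ : ℝ, 0 < c ∧ ∀ r : ℝ, r₀ ≤ r →
    c * r ^ ((d : ℝ) - k) ≤ count k d θ η (r ^ k) ∧ count k d θ η (r ^ k) ≤ C * r ^ ((d : ℝ) - k)

/-- The density: `d/k` times the volume of the unit ball `∑ |x_i|^k ≤ 1` of `ℝ^d`. -/
noncomputable def dens (k d : ℕ) : ℝ :=
  (2 * Real.Gamma (1 / k + 1)) ^ d / Real.Gamma ((d : ℝ) / k)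

/-- The meaning of the density. -/
theorem dens_eq (k d : ℕ) (hk : 1 ≤ k) (hd : 1 ≤ d) :
    dens k d = (d : ℝ) / k * (volume {x : Fin d → ℝ | ∑ i, |x i| ^ k ≤ 1}).toReal := by
  have hk0 : (0:ℝ) < k := by exact_mod_cast hk
  have hd0 : (0:ℝ) < d := by exact_mod_cast hd
  have hV := Pool.Agent.X25.MW.Vk_pos k d
  rw [Pool.Agent.X25.MW.vol_le hk hd 1, Pool.Agent.X25.MW.hh_of_nonneg zero_le_one, Real.one_rpow,
    mul_one, ENNReal.toReal_ofReal hV.le]
  unfold dens Pool.Agent.X25.MW.Vk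
  have hg : 0 < Real.Gamma ((d:ℝ) / k) := Real.Gamma_pos_of_pos (by positivity)
  rw [Real.Gamma_add_one (s := (d:ℝ) / k) (by positivity)]
  have hdk : (d:ℝ) / k ≠ 0 := by positivity
  generalize Real.Gamma (1 / (k:ℝ) + 1) = G1
  generalize hG : Real.Gamma ((d:ℝ) / k) = G2 at hg
  field_simp

theorem result (k : ℕ) (hk : 2 ≤ k) :
    -- (1) all large radii, dimension at least `2k+1`
    (∀ d : ℕ, 2 * k + 1 ≤ d → ∀ᵐ θ : Fin d → ℝ, ∀ η : ℝ, 0 < η → RightOrder k d θ η ∧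
      ∃ C r₀ : ℝ, ∀ r : ℝ, r₀ ≤ r →
        |(count k d θ η (r ^ k) : ℝ) - 2 * η * dens k d * r ^ ((d : ℝ) - k)| ≤
          C * r ^ ((d : ℝ) - k - 7 / 64)) ∧
    -- (2) almost all radii, dimension at least `k+1`
    (∀ d : ℕ, k + 1 ≤ d → ∀ᵐ θ : Fin d → ℝ, ∀ η : ℝ, 0 < η → ∀ ε : ℝ, 0 < ε →
      ∃ T₀ : ℝ, ∀ T : ℝ, T₀ ≤ T →
        volume {τ : ℝ | 0 ≤ τ ∧ τ ≤ T ∧ ε * τ ^ ((d : ℝ) / k - 1) <
          |(count k d θ η τ : ℝ) - 2 * η * dens k d * τ ^ ((d : ℝ) / k - 1)|} ≤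
          ENNReal.ofReal (T ^ (1 - 1 / (3 * (k : ℝ))))) ∧
    -- (3) dimension at most `k`: many radii without any lattice point
    (∀ d : ℕ, 1 ≤ d → d ≤ k → ∀ θ : Fin d → ℝ, ∀ η : ℝ, 0 < η → η ≤ 1 / (8 * 3 ^ d) →
      ¬ RightOrder k d θ η ∧ ∀ T : ℝ, 1 ≤ T →
        ENNReal.ofReal (T / 2) ≤ volume {τ : ℝ | 0 ≤ τ ∧ τ ≤ T ∧ count k d θ η τ = 0}) := by
  have hk0 : (0:ℝ) < k := by exact_mod_cast (by omega : 0 < k)
  refine ⟨fun d hd => ?_, fun d hd => Pool.Agent.X25.MW.most_all k d hk hd, fun d hd hdk θ η hη hη2 => ?_⟩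
  · filter_upwards [Pool.Agent.X25.MW.pow_all k d hk hd] with θ hθ η hη
    obtain ⟨C, hC, τ₀, hτ₀, h⟩ := hθ η hη
    have hd0 : (0:ℝ) < d := by exact_mod_cast (by omega : 0 < d)
    have hD : 0 < dens k d := by
      unfold dens
      have h1 : 0 < Real.Gamma (1 / (k:ℝ) + 1) := Real.Gamma_pos_of_pos (by positivity)
      have h2 : 0 < Real.Gamma ((d:ℝ) / k) := Real.Gamma_pos_of_pos (by positivity)
      positivity
    have key : ∀ r : ℝ, τ₀ ≤ r → |(count k d θ η (r ^ k) : ℝ) - 2 * η * dens k d * r ^ ((d : ℝ) - k)| ≤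
          C * r ^ ((d : ℝ) - k - 7 / 64) := by
      intro r hr
      have hr1 : 1 ≤ r := hτ₀.trans hr
      have hr0 : 0 < r := by linarith
      have hrk : τ₀ ≤ r ^ k := hr.trans (le_self_pow₀ hr1 (by omega))
      have h3 := h (r ^ k) hrk
      have e1 : (r ^ k) ^ ((d : ℝ) / k - 1) = r ^ ((d : ℝ) - k) := by
        rw [← Real.rpow_natCast r k, ← Real.rpow_mul hr0.le]
        congr 1
        field_simp
      have e2 : (r ^ k) ^ ((d : ℝ) / k - 1 - 7 / (64 * k)) = r ^ ((d : ℝ) - k - 7 / 64) := by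
        rw [← Real.rpow_natCast r k, ← Real.rpow_mul hr0.le]
        congr 1
        field_simp
      rw [e1, e2] at h3
      exact h3
    refine ⟨?_, C, τ₀, key⟩
    have hlim : Tendsto (fun r : ℝ => C * r ^ (-(7 / 64 : ℝ))) atTop (nhds (C * 0)) :=
      (tendsto_rpow_neg_atTop (by norm_num)).const_mul C
    rw [mul_zero] at hlim
    obtain ⟨r₁, hr₁⟩ := eventually_atTop.1 (hlim.eventually (gt_mem_nhds (show 0 < η * dens k d by positivity)))
    refine ⟨η * dens k d, 3 * η * dens k d, max τ₀ r₁, by positivity, fun r hr => ?_⟩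
    have h1 := key r ((le_max_left _ _).trans hr)
    have h2 := hr₁ r ((le_max_right _ _).trans hr)
    have hr0 : 0 < r := lt_of_lt_of_le (by linarith) ((le_max_left _ _).trans hr)
    have hrp : 0 < r ^ ((d : ℝ) - k) := by positivity
    have e3 : C * r ^ ((d : ℝ) - k - 7 / 64) = (C * r ^ (-(7 / 64 : ℝ))) * r ^ ((d : ℝ) - k) := by
      rw [mul_assoc, ← Real.rpow_add hr0]
      congr 2
      ring
    rw [e3] at h1
    have h3 : (C * r ^ (-(7 / 64 : ℝ))) * r ^ ((d : ℝ) - k) ≤ η * dens k d * r ^ ((d : ℝ) - k) := by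
      gcongr
    have h4 := abs_le.1 (h1.trans h3)
    constructor
    · linarith [h4.1]
    · linarith [h4.2]
  · have h0 := fun T (hT : (1:ℝ) ≤ T) => Pool.Agent.X25.MW.many_empty (by omega : 1 ≤ k) hd hdk θ hη hη2 hT
    refine ⟨?_, h0⟩
    rintro ⟨c, C, r₀, hc, h⟩
    set R : ℝ := max r₀ 1 with hR
    have hR1 : 1 ≤ R := le_max_right _ _
    have hRk : 1 ≤ R ^ k := one_le_pow₀ hR1
    have h1 := h0 (4 * R ^ k) (by linarith)
    have h2 : {τ : ℝ | 0 ≤ τ ∧ τ ≤ 4 * R ^ k ∧ (Pool.Agent.X25.MW.latt k d θ τ η).ncard = 0} ⊆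
        Set.Icc 0 (R ^ k) := by
      intro τ hτ
      obtain ⟨g1, _, g3⟩ := hτ
      refine ⟨g1, ?_⟩
      by_contra hcon
      rw [not_le] at hcon
      have hτr : (τ ^ (1 / (k:ℝ))) ^ k = τ := by
        rw [← Real.rpow_natCast, ← Real.rpow_mul g1, one_div, inv_mul_cancel₀ hk0.ne', Real.rpow_one]
      have hge : R ≤ τ ^ (1 / (k:ℝ)) := by
        have h5 : R ^ k ≤ (τ ^ (1 / (k:ℝ))) ^ k := by rw [hτr]; exact hcon.le
        exact le_of_pow_le_pow_left₀ (by omega) (by positivity) h5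
      have h6 := (h (τ ^ (1 / (k:ℝ))) ((le_max_left _ _).trans hge)).1
      rw [hτr] at h6
      have h7 : count k d θ η τ = 0 := g3
      rw [h7, Nat.cast_zero] at h6
      have h8 : 0 < (τ ^ (1 / (k:ℝ))) ^ ((d : ℝ) - k) := by
        have : 0 < τ ^ (1 / (k:ℝ)) := by linarith
        positivity
      have := mul_pos hc h8
      linarith
    have h3 := h1.trans (measure_mono h2)
    rw [Real.volume_Icc, sub_zero, ENNReal.ofReal_le_ofReal_iff (by linarith)] at h3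
    linarith

end Pool.Agent.Results.MP_927be3_nt.GenericCentres
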