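import Mathlib
import Pool.Agent.TH854.KS.K7

open Finset

namespace Pool.Agent.Results.MP_927be3_nt.LocalLowerBounds

/-- The arithmetic `k`-sphere `S_{k,d}(r)` of radius `r` in dimension `d`. -/
def sphere (k d : ℕ) (r : ℝ) : Set (Fin d → ℤ) := {m | ∑ i, |(m i : ℝ)| ^ k = r ^ k}

/-- `N_{k,d}(r) ≍ r^{d-k}`: there are `0 < c ≤ C` and `r₀` with `c r^{d-k} ≤ N_{k,d}(r) ≤ C r^{d-k}`
for all radii `r ≥ r₀`, `r > 0`, with `r^k` a natural number and non-empty `S_{k,d}(r)`. -/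
def OrderHolds (k d : ℕ) : Prop :=
  ∃ c C r₀ : ℝ, 0 < c ∧ c ≤ C ∧ ∀ r : ℝ, 0 < r → r₀ ≤ r → (∃ n : ℕ, r ^ k = n) →
    (sphere k d r).Nonempty →
    c * r ^ ((d : ℝ) - k) ≤ ((sphere k d r).ncard : ℝ) ∧
      ((sphere k d r).ncard : ℝ) ≤ C * r ^ ((d : ℝ) - k)

/-- Local conditions that are necessary for `N_{k,d}(r) ≍ r^{d-k}` (`k ≥ 3`): for every prime `p`
the form `x_1^k + ... + x_d^k` has a primitive zero modulo every power of `p`; consequently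
`d ≥ 2^{τ+2}` when `2^τ ∣ k`, `τ ≥ 1`, and `d ≥ p^{τ+1}` when `(p-1)p^τ ∣ k`. -/
theorem result (k : ℕ) (hk : 3 ≤ k) (d : ℕ) (hd : 1 ≤ d) (h : OrderHolds k d) :
    (∀ p : ℕ, p.Prime → ∀ γ : ℕ, ∃ y : Fin d → ℕ,
      p ^ γ ∣ ∑ i, y i ^ k ∧ ∃ i, ¬ p ∣ y i) ∧
    (∀ τ : ℕ, 1 ≤ τ → 2 ^ τ ∣ k → 2 ^ (τ + 2) ≤ d) ∧
    (∀ p τ : ℕ, p.Prime → (p - 1) * p ^ τ ∣ k → p ^ (τ + 1) ≤ d) := by
  obtain ⟨c, C, r₀, hc, _, h⟩ := h
  have h' : Pool.Agent.TH854.KS.Holds k d := by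
    refine ⟨c, C, r₀, hc, ?_⟩
    intro r hr hr0 hne
    refine h r hr hr0 ?_ hne
    obtain ⟨m, hm⟩ := hne
    refine ⟨∑ i, (m i).natAbs ^ k, ?_⟩
    have hm2 : ∑ i, |(m i : ℝ)| ^ k = r ^ k := hm
    rw [← hm2]
    push_cast
    apply Finset.sum_congr rfl
    intro i _
    rw [Nat.cast_natAbs, Int.cast_abs]
  have hd2 : k + 1 ≤ d := by
    by_contra hcon
    exact Pool.Agent.TH854.KS.fails_low hk hd (by omega) h'
  exact ⟨fun p hp γ => Pool.Agent.TH854.KS.primitive_of_holds hk hd2 h' hp γ,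
    fun τ hτ hdvd => Pool.Agent.TH854.KS.bound_two hk hd2 h' hτ hdvd,
    fun p τ hp hdvd => Pool.Agent.TH854.KS.bound_odd hk hd2 h' hp hdvd⟩

end Pool.Agent.Results.MP_927be3_nt.LocalLowerBounds
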